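import Mathlib

/-!
Definitions for Cantor series expansions and normality along arithmetic progressions.
-/

set_option autoImplicit false

open Filter Topology

namespace Pool.Agent.MP_ab119d_nt.H36

/-- `E 1, E 2, ...` are the digits of the `Q`-Cantor series expansion of `x`. -/
def IsExpansion (q : ℕ → ℕ) (x : ℝ) (E : ℕ → ℕ) : Prop :=
  (∀ n, 1 ≤ n → E n < q n) ∧ (∀ N, ∃ n, N ≤ n ∧ E n ≠ q n - 1) ∧
    HasSum (fun n : ℕ => (E (n + 1) : ℝ) / ∏ j ∈ Finset.Icc 1 (n + 1), (q j : ℝ)) (x - (⌊x⌋ : ℝ))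

/-- The number of positions `p ∈ S` at which the block `B` occurs. -/
def occ (E : ℕ → ℕ) {k : ℕ} (B : Fin k → ℕ) (S : Finset ℕ) : ℕ :=
  (S.filter fun p => ∀ i : Fin k, E (p + i) = B i).card

/-- The sum over `p ∈ S` of `1 / (q_p ... q_{p+k-1})`. -/
noncomputable def wt (q : ℕ → ℕ) (k : ℕ) (S : Finset ℕ) : ℝ :=
  ∑ p ∈ S, (∏ i ∈ Finset.range k, (q (p + i) : ℝ))⁻¹

/-- The positions `1 ≤ p ≤ n` with `p ≡ r mod m`. -/
def apPos (n m r : ℕ) : Finset ℕ :=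
  (Finset.Icc 1 n).filter fun p => p % m = r

/-- The `Q`-normal numbers. -/
def normalSet (q : ℕ → ℕ) : Set ℝ :=
  {x | ∃ E, IsExpansion q x E ∧ ∀ k, 1 ≤ k → ∀ B : Fin k → ℕ,
    Tendsto (fun n => (occ E B (Finset.Icc 1 n) : ℝ) / wt q k (Finset.Icc 1 n)) atTop (𝓝 1)}

/-- The numbers normal of order `k` along the progression `r mod m`. -/
def apNormalSet (q : ℕ → ℕ) (k m r : ℕ) : Set ℝ :=
  {x | ∃ E, IsExpansion q x E ∧ ∀ B : Fin k → ℕ,
    Tendsto (fun n => (occ E B (apPos n m r) : ℝ) / wt q k (apPos n m r)) atTop (𝓝 1)}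

end Pool.Agent.MP_ab119d_nt.H36
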