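import Pool.Agent.MP_ab119d_nt.H36.Defs

/-!
A covering lemma giving Hausdorff dimension zero, and the location of a number from its digits.
-/

set_option autoImplicit false

open Filter Topology Set MeasureTheory
open scoped ENNReal NNReal

namespace Pool.Agent.MP_ab119d_nt.H36

theorem dimH_limsup_eq_zero (cnt : ℕ → ℕ) (ctr : ℕ → ℕ → ℝ) (δ ρ : ℕ → ℝ) (hδ0 : ∀ p, 0 ≤ δ p)
    (hρ : Tendsto ρ atTop (𝓝 0)) (hδρ : ∀ N p, N ≤ p → δ p ≤ ρ N)
    (hsum : ∀ d : ℝ, 0 < d → Summable fun p => (cnt p : ℝ) * δ p ^ d) :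
    dimH {x : ℝ | ∀ N, ∃ p, N ≤ p ∧ ∃ a < cnt p, x ∈ Icc (ctr p a) (ctr p a + δ p)} = 0 := by
  refine le_antisymm ?_ (zero_le)
  refine le_of_forall_gt_imp_ge_of_dense fun D hD => ?_
  rcases eq_or_ne D ⊤ with rfl | hD'
  · exact le_top
  lift D to ℝ≥0 using hD'
  have hd : (0 : ℝ) < D := by exact_mod_cast hD
  refine dimH_le_of_hausdorffMeasure_ne_top ?_
  set f : ℕ → ℝ≥0∞ := fun p => ENNReal.ofReal ((cnt p : ℝ) * δ p ^ (D : ℝ)) with hf
  have hfs : ∑' p, f p ≠ ⊤ := by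
    rw [hf, ← ENNReal.ofReal_tsum_of_nonneg
      (fun p => mul_nonneg (Nat.cast_nonneg _) (Real.rpow_nonneg (hδ0 p) _)) (hsum D hd)]
    exact ENNReal.ofReal_ne_top
  have key := Measure.hausdorffMeasure_le_liminf_tsum (ι := fun N : ℕ => Σ p : ℕ, Fin (cnt (p + N)))
    (D : ℝ) {x : ℝ | ∀ N, ∃ p, N ≤ p ∧ ∃ a < cnt p, x ∈ Icc (ctr p a) (ctr p a + δ p)}
    (l := atTop) (fun N => ENNReal.ofReal (ρ N))
    (by simpa using ENNReal.tendsto_ofReal hρ)
    (fun N i => Icc (ctr (i.1 + N) i.2) (ctr (i.1 + N) i.2 + δ (i.1 + N)))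
    (Eventually.of_forall fun N i => by
      rw [Real.ediam_Icc]
      exact ENNReal.ofReal_le_ofReal (by simpa using hδρ N _ (Nat.le_add_left _ _)))
    (Eventually.of_forall fun N x hx => by
      obtain ⟨p, hp, a, ha, hxa⟩ := hx N
      obtain ⟨p', rfl⟩ := Nat.exists_eq_add_of_le' hp
      exact mem_iUnion.2 ⟨⟨p', ⟨a, ha⟩⟩, hxa⟩)
  have h2 : ∀ N : ℕ, ∑' i : (Σ p : ℕ, Fin (cnt (p + N))),
      Metric.ediam (Icc (ctr (i.1 + N) i.2) (ctr (i.1 + N) i.2 + δ (i.1 + N))) ^ (D : ℝ)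
      = ∑' p, f (p + N) := by
    intro N
    rw [ENNReal.tsum_sigma']
    refine tsum_congr fun p => ?_
    simp only [Real.ediam_Icc, add_sub_cancel_left, tsum_fintype, Finset.sum_const,
      Finset.card_univ, Fintype.card_fin, nsmul_eq_mul, hf]
    rw [ENNReal.ofReal_mul (Nat.cast_nonneg _), ENNReal.ofReal_natCast,
      ENNReal.ofReal_rpow_of_nonneg (hδ0 _) hd.le]
  simp only [h2] at key
  rw [(ENNReal.tendsto_sum_nat_add f hfs).liminf_eq] at key
  exact (key.trans_lt ENNReal.zero_lt_top).ne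

/-- The numerator of the `n`-th truncation. -/
def num (q E : ℕ → ℕ) : ℕ → ℕ
  | 0 => 0
  | n + 1 => num q E n * q (n + 1) + E (n + 1)

theorem location {q : ℕ → ℕ} {x : ℝ} {E : ℕ → ℕ} (h : IsExpansion q x E) (n : ℕ) :
    num q E n < ∏ j ∈ Finset.Icc 1 n, q j ∧
    x ∈ Icc ((⌊x⌋ : ℝ) + (num q E n : ℝ) / ∏ j ∈ Finset.Icc 1 n, (q j : ℝ))
      ((⌊x⌋ : ℝ) + (num q E n : ℝ) / ∏ j ∈ Finset.Icc 1 n, (q j : ℝ) +
        ((E (n + 1) : ℝ) + 1) / ∏ j ∈ Finset.Icc 1 (n + 1), (q j : ℝ)) := by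
  obtain ⟨h1, -, h3⟩ := h
  have hq : ∀ m, (0 : ℝ) < q (m + 1) := fun m => by
    have := h1 (m + 1) (by omega)
    exact_mod_cast (Nat.zero_le _).trans_lt this
  set P : ℕ → ℝ := fun m => ∏ j ∈ Finset.Icc 1 m, (q j : ℝ) with hP
  have hPs : ∀ m, P (m + 1) = P m * q (m + 1) := fun m => by
    simp only [hP]
    rw [Finset.prod_Icc_succ_top (by omega)]
  have hP0 : ∀ m, 0 < P m := fun m => by
    induction m with
    | zero => simp [hP]
    | succ m ih => rw [hPs]; exact mul_pos ih (hq m)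
  have hstep : ∀ m, (num q E (m + 1) : ℝ) / P (m + 1) = num q E m / P m + E (m + 1) / P (m + 1) := by
    intro m
    have := hP0 m
    have := hq m
    rw [hPs, num]
    push_cast
    field_simp
  have hpart : ∀ m, ∑ i ∈ Finset.range m, (E (i + 1) : ℝ) / P (i + 1) = num q E m / P m := by
    intro m
    induction m with
    | zero => simp [num]
    | succ m ih => rw [Finset.sum_range_succ, ih, hstep]
  have hanti : Antitone fun m => ((num q E m : ℝ) + 1) / P m := by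
    refine antitone_nat_of_succ_le fun m => ?_
    have h4 : (E (m + 1) : ℝ) + 1 ≤ q (m + 1) := by exact_mod_cast h1 (m + 1) (by omega)
    have := hP0 m
    have := hq m
    rw [hPs, num, div_le_div_iff₀ (by positivity) (by positivity)]
    push_cast
    nlinarith [mul_le_mul_of_nonneg_left h4 (hP0 m).le]
  have hlim := h3.tendsto_sum_nat
  have hlim' : Tendsto (fun m => (num q E m : ℝ) / P m) atTop (𝓝 (x - (⌊x⌋ : ℝ))) := by
    refine hlim.congr fun m => ?_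
    exact hpart m
  have hup : ∀ m, x - (⌊x⌋ : ℝ) ≤ ((num q E m : ℝ) + 1) / P m := by
    intro m
    refine le_of_tendsto hlim' (eventually_atTop.2 ⟨m, fun k hk => ?_⟩)
    refine le_trans ?_ (hanti hk)
    exact div_le_div_of_nonneg_right (by linarith) (hP0 k).le
  have hlow : (num q E n : ℝ) / P n ≤ x - (⌊x⌋ : ℝ) := by
    rw [← hpart]
    exact sum_le_hasSum _ (fun i _ => div_nonneg (Nat.cast_nonneg _) (hP0 (i + 1)).le) h3
  refine ⟨?_, ?_, ?_⟩
  · have h5 := hanti (Nat.zero_le n)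
    simp only [num, hP] at h5
    have h6 : ((num q E n : ℝ) + 1) ≤ P n := by
      have := hP0 n
      rw [div_le_iff₀ this] at h5
      simpa using h5
    have h7 : P n = ((∏ j ∈ Finset.Icc 1 n, q j : ℕ) : ℝ) := by simp [hP]
    rw [h7] at h6
    exact_mod_cast h6
  · change (⌊x⌋ : ℝ) + (num q E n : ℝ) / P n ≤ x
    linarith
  · change x ≤ (⌊x⌋ : ℝ) + (num q E n : ℝ) / P n + ((E (n + 1) : ℝ) + 1) / P (n + 1)
    have h8 := hup (n + 1)
    rw [add_div, hstep] at h8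
    rw [add_div]
    linarith

end Pool.Agent.MP_ab119d_nt.H36
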