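import Pool.Agent.MP_ab119d_nt.H36.Seq

/-!
Normal numbers with few small digits at huge positions are normal along even positions; the rest
has dimension zero.
-/

set_option autoImplicit false

open Filter Topology Set

namespace Pool.Agent.MP_ab119d_nt.H36

theorem card_T_le (n : ℕ) : ((Finset.Icc 1 n).filter T).card ≤ tc n :=
  Finset.card_le_card (Finset.filter_subset_filter _ fun p hp =>
    Finset.mem_range.2 (by have := (Finset.mem_Icc.1 hp).2; omega))

theorem card_T_succ_le (n : ℕ) : ((Finset.Icc 1 n).filter fun p => T (p + 1)).card ≤ tc n := by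
  refine Finset.card_le_card_of_injOn (fun p => p + 1) ?_ (fun a _ b _ h => by simpa using h)
  intro p hp
  obtain ⟨h1, h2⟩ := Finset.mem_filter.1 (Finset.mem_coe.1 hp)
  exact Finset.mem_coe.2 (Finset.mem_filter.2
    ⟨Finset.mem_range.2 (by have := (Finset.mem_Icc.1 h1).2; show p + 1 < n + 2; omega), h2⟩)

theorem odd_cases {p : ℕ} (hp : p % 2 = 1) : T p ∨ T (p + 1) ∨ H p ∨ H (p + 1) := by
  by_cases h1 : T p
  · exact Or.inl h1
  by_cases h2 : T (p + 1)
  · exact Or.inr (Or.inl h2)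
  rcases (by omega : 2 ≤ p % 4 ∨ 2 ≤ (p + 1) % 4) with h | h
  · exact Or.inr (Or.inr (Or.inl ⟨h, h1⟩))
  · exact Or.inr (Or.inr (Or.inr ⟨h, h2⟩))

theorem wt_odd_le (n : ℕ) : wt q 2 (apPos n 2 1) ≤ 2 * (tc n : ℝ) + (2 : ℕ) := by
  have hq1 : ∀ i, (1 : ℝ) ≤ q i := fun i => by
    have := two_le_q i
    exact_mod_cast (by omega : 1 ≤ q i)
  have hterm : ∀ p ∈ apPos n 2 1, (∏ i ∈ Finset.range 2, (q (p + i) : ℝ))⁻¹ ≤
      (if T p then (1 : ℝ) else 0) + (if T (p + 1) then (1 : ℝ) else 0) + (1 / 2) ^ p := by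
    intro p hp
    have hodd := (Finset.mem_filter.1 hp).2
    rw [Finset.prod_range_succ, Finset.prod_range_one, add_zero]
    have h0 : (0 : ℝ) ≤ (1 / 2) ^ p := by positivity
    have h1 : ((q p : ℝ) * q (p + 1))⁻¹ ≤ 1 :=
      inv_le_one_of_one_le₀ (one_le_mul_of_one_le_of_one_le (hq1 _) (hq1 _))
    have hbig : (2 : ℝ) ^ p ≤ (q p : ℝ) * q (p + 1) → ((q p : ℝ) * q (p + 1))⁻¹ ≤ (1 / 2) ^ p := by
      intro h
      rw [one_div, inv_pow]
      exact inv_anti₀ (by positivity) h
    rcases odd_cases hodd with h | h | h | h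
    · rw [if_pos h]
      split_ifs <;> linarith
    · rw [if_pos h]
      split_ifs <;> linarith
    · have h2 : (2 : ℝ) ^ p ≤ q p := by exact_mod_cast q_of_H h
      have := hbig (h2.trans (le_mul_of_one_le_right (by positivity) (hq1 _)))
      split_ifs <;> linarith
    · have h2 : (2 : ℝ) ^ (p + 1) ≤ q (p + 1) := by exact_mod_cast q_of_H h
      have h3 : (2 : ℝ) ^ p ≤ 2 ^ (p + 1) := pow_le_pow_right₀ (by norm_num) (by omega)
      have := hbig ((h3.trans h2).trans (le_mul_of_one_le_left (by positivity) (hq1 _)))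
      split_ifs <;> linarith
  refine (Finset.sum_le_sum hterm).trans ?_
  refine (Finset.sum_le_sum_of_subset_of_nonneg (Finset.filter_subset _ (Finset.Icc 1 n))
    fun p _ _ => by positivity).trans ?_
  rw [Finset.sum_add_distrib, Finset.sum_add_distrib, Finset.sum_boole, Finset.sum_boole]
  have h1 : (((Finset.Icc 1 n).filter T).card : ℝ) ≤ tc n := by exact_mod_cast card_T_le n
  have h2 : (((Finset.Icc 1 n).filter fun p => T (p + 1)).card : ℝ) ≤ tc n := by
    exact_mod_cast card_T_succ_le n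
  have h3 : ∑ p ∈ Finset.Icc 1 n, ((1 : ℝ) / 2) ^ p ≤ 2 :=
    sum_le_hasSum _ (fun _ _ => by positivity) hasSum_geometric_two
  push_cast
  linarith

theorem occ_odd_le (E : ℕ → ℕ) (B : Fin 2 → ℕ) (M : ℕ)
    (hM : ∀ p, M ≤ p → H p → max (B 0) (B 1) < E p) (n : ℕ) :
    occ E B (apPos n 2 1) ≤ 2 * tc n + M := by
  have hsub : ((apPos n 2 1).filter fun p => ∀ i : Fin 2, E (p + i) = B i) ⊆
      ((Finset.Icc 1 n).filter T ∪ (Finset.Icc 1 n).filter fun p => T (p + 1)) ∪
        Finset.range M := by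
    intro p hp
    obtain ⟨h1, h2⟩ := Finset.mem_filter.1 hp
    obtain ⟨h3, h4⟩ := Finset.mem_filter.1 h1
    simp only [Finset.mem_union, Finset.mem_filter, Finset.mem_range]
    rcases odd_cases h4 with h | h | h | h
    · exact Or.inl (Or.inl ⟨h3, h⟩)
    · exact Or.inl (Or.inr ⟨h3, h⟩)
    · right
      by_contra hc
      have h5 := hM p (by omega) h
      have h6 : E p = B 0 := h2 0
      have := le_max_left (B 0) (B 1)
      omega
    · right
      by_contra hc
      have h5 := hM (p + 1) (by omega) h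
      have h6 : E (p + 1) = B 1 := h2 1
      have := le_max_right (B 0) (B 1)
      omega
  refine (Finset.card_le_card hsub).trans ((Finset.card_union_le _ _).trans ?_)
  rw [Finset.card_range]
  have := (Finset.card_union_le ((Finset.Icc 1 n).filter T)
    ((Finset.Icc 1 n).filter fun p => T (p + 1)))
  have := card_T_le n
  have := card_T_succ_le n
  omega

theorem apPos_union (n : ℕ) : apPos n 2 0 ∪ apPos n 2 1 = Finset.Icc 1 n := by
  ext p
  simp only [apPos, Finset.mem_union, Finset.mem_filter]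
  constructor
  · rintro (h | h) <;> exact h.1
  · intro h
    rcases Nat.mod_two_eq_zero_or_one p with h' | h'
    · exact Or.inl ⟨h, h'⟩
    · exact Or.inr ⟨h, h'⟩

theorem apPos_disjoint (n : ℕ) : Disjoint (apPos n 2 0) (apPos n 2 1) := by
  rw [Finset.disjoint_left]
  intro p h1 h2
  have := (Finset.mem_filter.1 h1).2
  have := (Finset.mem_filter.1 h2).2
  omega

theorem ap_normal_of_normal (E : ℕ → ℕ) (B : Fin 2 → ℕ) (M : ℕ)
    (hM : ∀ p, M ≤ p → H p → max (B 0) (B 1) < E p)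
    (hN : Tendsto (fun n => (occ E B (Finset.Icc 1 n) : ℝ) / wt q 2 (Finset.Icc 1 n)) atTop (𝓝 1)) :
    Tendsto (fun n => (occ E B (apPos n 2 0) : ℝ) / wt q 2 (apPos n 2 0)) atTop (𝓝 1) := by
  have hW0 : ∀ S, 0 ≤ wt q 2 S := fun S => Finset.sum_nonneg fun _ _ => by positivity
  have h1 : Tendsto (fun n => (occ E B (apPos n 2 1) : ℝ) / wt q 2 (Finset.Icc 1 n)) atTop (𝓝 0) := by
    refine squeeze_zero (fun n => div_nonneg (Nat.cast_nonneg _) (hW0 _)) (fun n => ?_)
      (small_ratio M)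
    refine div_le_div_of_nonneg_right ?_ (hW0 _)
    exact_mod_cast occ_odd_le E B M hM n
  have h2 : Tendsto (fun n => wt q 2 (apPos n 2 1) / wt q 2 (Finset.Icc 1 n)) atTop (𝓝 0) :=
    squeeze_zero (fun n => div_nonneg (hW0 _) (hW0 _))
      (fun n => div_le_div_of_nonneg_right (wt_odd_le n) (hW0 _)) (small_ratio 2)
  have h3 := (hN.sub h1).div ((tendsto_const_nhds (x := (1 : ℝ))).sub h2) (by norm_num)
  simp only [sub_zero, div_one] at h3
  have hpos : ∀ᶠ n in atTop, 0 < wt q 2 (Finset.Icc 1 n) := by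
    filter_upwards [(fully_divergent 2 2 0 (by norm_num)).eventually_gt_atTop 0] with n hn
    exact hn.trans_le (wt_mono 2 (Finset.filter_subset _ _))
  refine h3.congr' ?_
  filter_upwards [hpos] with n hn
  have e1 : (occ E B (Finset.Icc 1 n) : ℝ) = occ E B (apPos n 2 0) + occ E B (apPos n 2 1) := by
    rw [← apPos_union, occ, Finset.filter_union, Finset.card_union_of_disjoint
      (Finset.disjoint_filter_filter (apPos_disjoint n))]
    push_cast
    rfl
  have e2 : wt q 2 (Finset.Icc 1 n) = wt q 2 (apPos n 2 0) + wt q 2 (apPos n 2 1) := by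
    rw [← apPos_union, wt, Finset.sum_union (apPos_disjoint n)]
    rfl
  have e3 : (occ E B (apPos n 2 0) : ℝ) = occ E B (Finset.Icc 1 n) - occ E B (apPos n 2 1) := by
    linarith
  have e4 : wt q 2 (apPos n 2 0) = wt q 2 (Finset.Icc 1 n) - wt q 2 (apPos n 2 1) := by linarith
  simp only [Pi.div_apply]
  rw [e3, e4, ← sub_div, one_sub_div hn.ne', div_div_div_cancel_right₀ hn.ne']

/-- The exceptional sets. -/
def exc (z : ℤ) (c : ℕ) : Set ℝ :=
  {x : ℝ | ∀ N, ∃ p, N ≤ p ∧ ∃ a < (if H (p + 1) then P p else 0),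
    x ∈ Icc ((z : ℝ) + (a : ℝ) / P p) ((z : ℝ) + (a : ℝ) / P p + ((c : ℝ) + 1) / P (p + 1))}

theorem dimH_exc (z : ℤ) (c : ℕ) : dimH (exc z c) = 0 := by
  have hP : ∀ p, (0 : ℝ) < P p := fun p => by exact_mod_cast P_pos p
  refine dimH_limsup_eq_zero (fun p => if H (p + 1) then P p else 0)
    (fun p a => (z : ℝ) + (a : ℝ) / P p) (fun p => ((c : ℝ) + 1) / P (p + 1))
    (fun N => ((c : ℝ) + 1) * (1 / 2) ^ N) (fun p => div_nonneg (by positivity) (hP _).le) ?_ ?_ ?_
  · simpa using (tendsto_pow_atTop_nhds_zero_of_lt_one (r := (1 / 2 : ℝ)) (by norm_num)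
      (by norm_num)).const_mul ((c : ℝ) + 1)
  · intro N p hp
    rw [div_eq_mul_inv, one_div, inv_pow]
    refine mul_le_mul_of_nonneg_left (inv_anti₀ (by positivity) ?_) (by positivity)
    have h1 : 2 ^ N ≤ P (p + 1) :=
      (Nat.pow_le_pow_right (by norm_num) (by omega)).trans (two_pow_le_P (p + 1))
    exact_mod_cast h1
  · intro d hd
    have hr : (2 : ℝ) ^ (-d) < 1 := Real.rpow_lt_one_of_one_lt_of_neg (by norm_num) (by linarith)
    have hr0 : (0 : ℝ) ≤ (2 : ℝ) ^ (-d) := by positivity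
    have hs := (summable_geometric_of_lt_one hr0 hr).mul_left (((c : ℝ) + 1) ^ d)
    refine Summable.of_norm_bounded_eventually_nat hs ?_
    obtain ⟨N, hN⟩ := exists_nat_ge (1 / d)
    filter_upwards [eventually_ge_atTop N] with p hp
    rw [Real.norm_of_nonneg (mul_nonneg (Nat.cast_nonneg _)
      (Real.rpow_nonneg (div_nonneg (by positivity) (hP _).le) _))]
    by_cases hH : H (p + 1)
    swap
    · simp only [hH, if_false, Nat.cast_zero, zero_mul]
      positivity
    simp only [hH, if_true]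
    have hP1 : (1 : ℝ) ≤ P p := by exact_mod_cast P_pos p
    have h1 : (2 : ℝ) ^ p * (P p : ℝ) ^ p ≤ P (p + 1) := by
      rw [P, if_pos hH]
      push_cast
      rw [← mul_pow]
      refine le_trans ?_ (le_mul_of_one_le_left (by positivity) hP1)
      exact pow_le_pow_right₀ (by linarith) (by omega)
    have hpd : 1 ≤ (p : ℝ) * d := by
      have : (N : ℝ) ≤ p := by exact_mod_cast hp
      rw [div_le_iff₀ hd] at hN
      nlinarith
    have h2 : ((2 : ℝ) ^ d) ^ p * P p ≤ (P (p + 1) : ℝ) ^ d := by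
      refine le_trans ?_ (Real.rpow_le_rpow (by positivity) h1 hd.le)
      rw [Real.mul_rpow (by positivity) (by positivity), ← Real.rpow_natCast (2 ^ d),
        ← Real.rpow_mul (by norm_num), ← Real.rpow_natCast 2, ← Real.rpow_mul (by norm_num),
        mul_comm d p, ← Real.rpow_natCast (P p : ℝ), ← Real.rpow_mul (by positivity)]
      refine mul_le_mul_of_nonneg_left ?_ (by positivity)
      calc (P p : ℝ) = (P p : ℝ) ^ (1 : ℝ) := (Real.rpow_one _).symm
        _ ≤ _ := Real.rpow_le_rpow_of_exponent_le hP1 hpd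
    rw [Real.div_rpow (by positivity) (hP _).le, Real.rpow_neg (by norm_num), inv_pow,
      ← mul_div_assoc, mul_comm, mul_div_assoc]
    refine mul_le_mul_of_nonneg_left ?_ (by positivity)
    rw [div_le_iff₀ (Real.rpow_pos_of_pos (hP _) _), inv_mul_eq_div, le_div_iff₀ (by positivity)]
    linarith

theorem dimH_main :
    dimH (normalSet q \ ⋃ k, ⋃ (_ : 2 ≤ k), ⋃ r, ⋃ (_ : r < k), apNormalSet q k k r) = 0 := by
  refine le_antisymm ?_ zero_le
  have hU : dimH (⋃ z : ℤ, ⋃ c : ℕ, exc z c) = 0 := by simp [dimH_iUnion, dimH_exc]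
  rw [← hU]
  refine dimH_mono ?_
  rintro x ⟨⟨E, hE, hN⟩, hx⟩
  by_contra hcon
  simp only [mem_iUnion, not_exists] at hcon hx
  refine hx 2 le_rfl 0 (by norm_num) ⟨E, hE, fun B => ?_⟩
  have h1 := hcon ⌊x⌋ (max (B 0) (B 1))
  simp only [exc, mem_ofPred_eq, not_forall, not_exists, not_and] at h1
  obtain ⟨N, hN'⟩ := h1
  refine ap_normal_of_normal E B (N + 1) (fun p hp hH => ?_) (hN 2 (by norm_num) B)
  obtain ⟨p, rfl⟩ : ∃ p', p = p' + 1 := ⟨p - 1, by omega⟩
  by_contra hc
  obtain ⟨h2, h3, h4⟩ := location hE p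
  rw [prod_q] at h2
  rw [prod_q_real] at h3
  rw [prod_q_real, prod_q_real] at h4
  refine hN' p (by omega) (num q E p) (by rw [if_pos hH]; exact h2) ⟨h3, h4.trans ?_⟩
  have hP : (0 : ℝ) < P (p + 1) := by exact_mod_cast P_pos _
  have h5 : (E (p + 1) : ℝ) ≤ (max (B 0) (B 1) : ℕ) := by exact_mod_cast not_lt.1 hc
  gcongr

end Pool.Agent.MP_ab119d_nt.H36
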