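import Pool.Agent.MP_ab119d_nt.H36.Dim

/-!
The basic sequence: small, small, huge, huge, with rare stretches of small terms.
-/

set_option autoImplicit false

open Filter Topology Set

namespace Pool.Agent.MP_ab119d_nt.H36

/-- Stretch positions. -/
def T (p : ℕ) : Prop := p < 4 ^ Nat.log 4 p + 2 ^ Nat.log 4 p

instance : DecidablePred T := fun p => by unfold T; infer_instance

/-- Huge positions. -/
def H (p : ℕ) : Prop := 2 ≤ p % 4 ∧ ¬ T p

instance : DecidablePred H := fun p => by unfold H; infer_instance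

/-- The products. -/
def P : ℕ → ℕ
  | 0 => 1
  | n + 1 => P n * (if H (n + 1) then (2 * P n) ^ (n + 1) else Nat.log 4 (n + 1) + 2)

/-- The basic sequence. -/
def q (n : ℕ) : ℕ := if H n then (2 * P (n - 1)) ^ n else Nat.log 4 n + 2

theorem P_succ (n : ℕ) : P (n + 1) = P n * q (n + 1) := by
  simp [P, q]

theorem P_pos (n : ℕ) : 0 < P n := by
  induction n with
  | zero => simp [P]
  | succ n ih =>
    rw [P]
    split_ifs
    · positivity
    · positivity

theorem prod_q (n : ℕ) : ∏ j ∈ Finset.Icc 1 n, q j = P n := by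
  induction n with
  | zero => simp [P]
  | succ n ih => rw [Finset.prod_Icc_succ_top (by omega), ih, P_succ]

theorem prod_q_real (n : ℕ) : ∏ j ∈ Finset.Icc 1 n, (q j : ℝ) = P n := by
  rw [← prod_q]
  simp

theorem q_of_H {n : ℕ} (h : H n) : 2 ^ n ≤ q n := by
  rw [q, if_pos h]
  exact Nat.pow_le_pow_left (by have := P_pos (n - 1); omega) _

theorem q_of_not_H {n : ℕ} (h : ¬ H n) : q n = Nat.log 4 n + 2 := by
  rw [q, if_neg h]

theorem log_le_q (n : ℕ) : Nat.log 4 n + 2 ≤ q n := by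
  by_cases h : H n
  · refine le_trans ?_ (q_of_H h)
    have h0 : n ≠ 0 := by
      rintro rfl
      exact absurd h.1 (by norm_num)
    have h1 : Nat.log 4 n < n := Nat.log_lt_self 4 h0
    have h2 : n < 2 ^ n := Nat.lt_two_pow_self
    omega
  · rw [q_of_not_H h]

theorem two_le_q (n : ℕ) : 2 ≤ q n := le_trans (by omega) (log_le_q n)

theorem two_pow_le_P (n : ℕ) : 2 ^ n ≤ P n := by
  induction n with
  | zero => simp [P]
  | succ n ih =>
    rw [P_succ, pow_succ]
    exact Nat.mul_le_mul ih (two_le_q _)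

theorem tendsto_log : Tendsto (fun n => Nat.log 4 n) atTop atTop := by
  refine tendsto_atTop_atTop.2 fun b => ⟨4 ^ b, fun a ha => ?_⟩
  exact Nat.le_log_of_pow_le (by norm_num) ha

theorem tendsto_q : Tendsto q atTop atTop :=
  tendsto_atTop_mono (fun n => le_trans (by omega) (log_le_q n)) tendsto_log

theorem poly_div_two_pow (k : ℕ) :
    Tendsto (fun j : ℕ => ((j : ℝ) + 2) ^ k / 2 ^ j) atTop (𝓝 0) := by
  have h := (tendsto_pow_const_div_const_pow_of_one_lt k (r := 2) (by norm_num)).comp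
    (tendsto_add_atTop_nat 2)
  have h2 := h.const_mul 4
  simp only [mul_zero] at h2
  refine h2.congr fun j => ?_
  simp only [Function.comp, pow_add]
  push_cast
  field_simp
  ring

theorem eventually_poly_le (a k : ℕ) : ∀ᶠ j : ℕ in atTop, a * (j + 2) ^ k ≤ 2 ^ j := by
  have h := (poly_div_two_pow k).const_mul (a : ℝ)
  simp only [mul_zero] at h
  filter_upwards [h.eventually (gt_mem_nhds zero_lt_one)] with j hj
  have h2 : (0 : ℝ) < 2 ^ j := by positivity
  rw [← mul_div_assoc, div_lt_one h2] at hj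
  exact_mod_cast hj.le

theorem wt_mono (k : ℕ) {S S' : Finset ℕ} (h : S ⊆ S') : wt q k S ≤ wt q k S' :=
  Finset.sum_le_sum_of_subset_of_nonneg h fun _ _ _ => by positivity

theorem log_eq_of_stretch {j p : ℕ} (h1 : 4 ^ j ≤ p) (h2 : p < 4 ^ j + 2 ^ j) :
    Nat.log 4 p = j := by
  rw [Nat.log_eq_iff (Or.inr ⟨by norm_num, by have : 0 < 4 ^ j := by positivity
                                              omega⟩)]
  have : 2 ^ j ≤ 4 ^ j := Nat.pow_le_pow_left (by norm_num) _
  refine ⟨h1, ?_⟩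
  rw [pow_succ]
  omega

theorem q_of_stretch {j p : ℕ} (h1 : 4 ^ j ≤ p) (h2 : p < 4 ^ j + 2 ^ j) : q p = j + 2 := by
  have h := log_eq_of_stretch h1 h2
  rw [q_of_not_H, h]
  intro hH
  exact hH.2 (by unfold T; rwa [h])

theorem fully_divergent (k m r : ℕ) (hr : r < m) :
    Tendsto (fun n => wt q k (apPos n m r)) atTop atTop := by
  refine tendsto_atTop_atTop_of_monotone (fun a b hab => wt_mono k ?_) fun b => ?_
  · exact Finset.filter_subset_filter _ (Finset.Icc_subset_Icc_right hab)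
  obtain ⟨M, hM⟩ := exists_nat_ge b
  obtain ⟨j, hj⟩ := (eventually_poly_le (m * M + 2 * m + k) k).exists
  set u := M * (j + 2) ^ k with hu
  have hpos : 1 ≤ (j + 2) ^ k := Nat.one_le_pow _ _ (by omega)
  have hle : m * (u + 2) + k ≤ 2 ^ j := by
    refine le_trans ?_ hj
    rw [hu]
    nlinarith
  have hm : 0 < m := by omega
  set f : ℕ → ℕ := fun t => m * (4 ^ j / m + 1 + t) + r with hf
  have hfinj : Function.Injective f := by
    intro a b hab
    simp only [hf] at hab
    have : m * (4 ^ j / m + 1 + a) = m * (4 ^ j / m + 1 + b) := by omega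
    have := Nat.eq_of_mul_eq_mul_left hm this
    omega
  have hdm := Nat.div_add_mod (4 ^ j) m
  have hml := Nat.mod_lt (4 ^ j) hm
  have hf1 : ∀ t, 4 ^ j ≤ f t := fun t => by
    simp only [hf]
    nlinarith [Nat.zero_le (m * t)]
  have hf2 : ∀ t < u, f t + k ≤ 4 ^ j + 2 ^ j := fun t ht => by
    simp only [hf]
    have h1 : m * (t + 1) ≤ m * u := Nat.mul_le_mul_left m ht
    have h2 : m * (4 ^ j / m + 1 + t) = m * (4 ^ j / m) + m * (t + 1) := by ring
    have h3 : m * (u + 2) = m * u + 2 * m := by ring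
    omega
  refine ⟨4 ^ j + 2 ^ j, hM.trans (le_trans ?_ (wt_mono k (S := (Finset.range u).image f) ?_))⟩
  · rw [wt, Finset.sum_image fun a _ b _ h => hfinj h]
    have : ∀ t ∈ Finset.range u,
        (∏ i ∈ Finset.range k, (q (f t + i) : ℝ))⁻¹ = (((j : ℝ) + 2) ^ k)⁻¹ := by
      intro t ht
      congr 1
      rw [Finset.prod_congr rfl (g := fun _ => ((j : ℝ) + 2))]
      · simp
      · intro i hi
        have h1 := hf1 t
        have h2 := hf2 t (Finset.mem_range.1 ht)
        have h3 := Finset.mem_range.1 hi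
        rw [q_of_stretch (j := j) (by omega) (by omega)]
        push_cast
        ring
    rw [Finset.sum_congr rfl this, Finset.sum_const, Finset.card_range, nsmul_eq_mul, hu]
    push_cast
    field_simp
    exact le_rfl
  · intro p hp
    obtain ⟨t, ht, rfl⟩ := Finset.mem_image.1 hp
    have h1 := hf1 t
    have h2 := hf2 t (Finset.mem_range.1 ht)
    have h4 : 0 < 4 ^ j := by positivity
    refine Finset.mem_filter.2 ⟨Finset.mem_Icc.2 ⟨by omega, by omega⟩, ?_⟩
    simp only [hf]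
    rw [Nat.mul_add_mod, Nat.mod_eq_of_lt hr]

/-- The number of stretch positions up to `n + 1`. -/
def tc (n : ℕ) : ℕ := ((Finset.range (n + 2)).filter T).card

theorem tc_le (n : ℕ) : tc n ≤ (Nat.log 4 (n + 1) + 1) * 2 ^ Nat.log 4 (n + 1) + 1 := by
  set J := Nat.log 4 (n + 1) with hJ
  have hsub : (Finset.range (n + 2)).filter T ⊆
      insert 0 ((Finset.range (J + 1)).biUnion fun j => Finset.Ico (4 ^ j) (4 ^ j + 2 ^ j)) := by
    intro p hp
    obtain ⟨h1, h2⟩ := Finset.mem_filter.1 hp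
    rcases eq_or_ne p 0 with rfl | h0
    · exact Finset.mem_insert_self _ _
    refine Finset.mem_insert_of_mem (Finset.mem_biUnion.2 ⟨Nat.log 4 p, ?_, ?_⟩)
    · have : Nat.log 4 p ≤ J := Nat.log_mono_right (by have := Finset.mem_range.1 h1; omega)
      exact Finset.mem_range.2 (by omega)
    · exact Finset.mem_Ico.2 ⟨Nat.pow_log_le_self 4 h0, h2⟩
  refine (Finset.card_le_card hsub).trans ((Finset.card_insert_le _ _).trans ?_)
  refine Nat.add_le_add_right ?_ 1
  refine (Finset.card_biUnion_le_card_mul _ _ (2 ^ J) fun j hj => ?_).trans (by simp)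
  rw [Nat.card_Ico, Nat.add_sub_cancel_left]
  exact Nat.pow_le_pow_right (by norm_num) (by have := Finset.mem_range.1 hj; omega)

theorem wt_lower (n : ℕ) :
    ((n / 4 : ℕ) : ℝ) / ((Nat.log 4 (n + 1) : ℝ) + 2) ^ 2 ≤ wt q 2 (Finset.Icc 1 n) := by
  set J := Nat.log 4 (n + 1) with hJ
  refine le_trans ?_ (wt_mono 2 (S := (Finset.range (n / 4)).image fun t => 4 * (t + 1)) ?_)
  · rw [wt, Finset.sum_image fun a _ b _ h => by simpa using h]
    have : ∀ t ∈ Finset.range (n / 4),
        (((J : ℝ) + 2) ^ 2)⁻¹ ≤ (∏ i ∈ Finset.range 2, (q (4 * (t + 1) + i) : ℝ))⁻¹ := by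
      intro t ht
      have ht' := Finset.mem_range.1 ht
      have hq : ∀ i < 2, (q (4 * (t + 1) + i) : ℝ) ≤ J + 2 := by
        intro i hi
        rw [q_of_not_H (fun h => by have := h.1; omega)]
        have : Nat.log 4 (4 * (t + 1) + i) ≤ J := Nat.log_mono_right (by omega)
        exact_mod_cast Nat.add_le_add_right this 2
      have hq0 : ∀ i, (0 : ℝ) < q i := fun i => by
        have := two_le_q i
        exact_mod_cast (by omega : 0 < q i)
      refine inv_anti₀ (Finset.prod_pos fun i _ => hq0 _) ?_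
      rw [Finset.prod_range_succ, Finset.prod_range_one, sq]
      exact mul_le_mul (hq 0 (by norm_num)) (hq 1 (by norm_num)) (hq0 _).le (by positivity)
    refine le_trans ?_ (Finset.sum_le_sum this)
    rw [Finset.sum_const, Finset.card_range, nsmul_eq_mul, div_eq_mul_inv]
  · intro p hp
    obtain ⟨t, ht, rfl⟩ := Finset.mem_image.1 hp
    have ht' := Finset.mem_range.1 ht
    exact Finset.mem_Icc.2 ⟨by omega, by omega⟩

theorem small_ratio (C : ℕ) :
    Tendsto (fun n => (2 * (tc n : ℝ) + C) / wt q 2 (Finset.Icc 1 n)) atTop (𝓝 0) := by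
  have hJ : Tendsto (fun n => Nat.log 4 (n + 1)) atTop atTop :=
    tendsto_log.comp (tendsto_add_atTop_nat 1)
  have h1 := ((poly_div_two_pow 3).const_mul (8 * ((C : ℝ) + 4))).comp hJ
  simp only [mul_zero] at h1
  refine squeeze_zero' (Eventually.of_forall fun n => ?_) ?_ h1
  · exact div_nonneg (by positivity) (Finset.sum_nonneg fun _ _ => by positivity)
  filter_upwards [hJ.eventually_ge_atTop 2] with n hn
  set J := Nat.log 4 (n + 1) with hJdef
  have h2 : 4 ^ J ≤ n + 1 := Nat.pow_log_le_self 4 (by omega)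
  have h3 : 16 ≤ 4 ^ J := by
    calc 16 = 4 ^ 2 := by norm_num
      _ ≤ 4 ^ J := Nat.pow_le_pow_right (by norm_num) hn
  have h4 : 4 ^ J ≤ 8 * (n / 4) := by omega
  have h5 : ((2 : ℝ) ^ J) ^ 2 ≤ 8 * ((n / 4 : ℕ) : ℝ) := by
    rw [← pow_mul, mul_comm J 2, pow_mul]
    norm_num
    exact_mod_cast h4
  have h6 : (tc n : ℝ) ≤ (J + 1) * 2 ^ J + 1 := by exact_mod_cast tc_le n
  have h7 := wt_lower n
  rw [← hJdef] at h7
  have hX : (1 : ℝ) ≤ 2 ^ J := one_le_pow₀ (by norm_num)
  have hJ0 : (0 : ℝ) ≤ J := Nat.cast_nonneg _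
  have hC0 : (0 : ℝ) ≤ C := Nat.cast_nonneg _
  have h8 : ((2 : ℝ) ^ J) ^ 2 / (8 * ((J : ℝ) + 2) ^ 2) ≤ wt q 2 (Finset.Icc 1 n) := by
    refine le_trans ?_ h7
    rw [div_le_div_iff₀ (by positivity) (by positivity)]
    nlinarith [mul_le_mul_of_nonneg_right h5 (by positivity : (0 : ℝ) ≤ ((J : ℝ) + 2) ^ 2)]
  have h9 : 2 * (tc n : ℝ) + C ≤ (C + 4) * (J + 2) * 2 ^ J := by
    have : (1 : ℝ) ≤ (J + 2) * 2 ^ J := by nlinarith
    nlinarith [mul_nonneg hC0 (sub_nonneg.2 this), mul_nonneg hJ0 (sub_nonneg.2 hX)]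
  calc (2 * (tc n : ℝ) + C) / wt q 2 (Finset.Icc 1 n)
      ≤ ((C + 4) * (J + 2) * 2 ^ J) / (((2 : ℝ) ^ J) ^ 2 / (8 * ((J : ℝ) + 2) ^ 2)) := by
        gcongr
    _ = 8 * ((C : ℝ) + 4) * (((J : ℝ) + 2) ^ 3 / 2 ^ J) := by
        field_simp

end Pool.Agent.MP_ab119d_nt.H36
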